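import Pool.Agent.W23.SG.Defs
import Pool.Agent.H442R2.BX.Bk

/-!
SG project, task BK2 (helper826): one coarse block.
-/

namespace Pool.Agent.W826.SG

open Finset
open Pool.Agent.H442R2
open Pool.Agent.H442R2.KF
open Pool.Agent.H442R2.BX
open Pool.Agent.W23.SG

/-- the case of large `N`, numbers only -/
lemma numL {x L q e0 C1 C2 C3 n1 n2 η Fs lz G O E SY Sa c : ℝ} (hx : 2 ≤ x) (hL : L = Real.log x)
    (he0 : 0 < e0) (hC1 : 0 < C1) (hC2 : 0 < C2) (hC3 : 0 < C3)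
    (hn1 : 0 < n1) (hn2 : 0 < n2) (hη1 : η ≤ n1 / 2) (hη2 : η ≤ n2) (hc : 0 ≤ c)
    (hlz : e0 / 2 * L ≤ lz) (hFs : Fs ≤ q) (hFs0 : 0 ≤ Fs) (hqx : q ≤ x)
    (hG : G = C2 * x / lz) (hO : O = C1 * x ^ (1 - n1)) (hSY : SY ≤ 25 * Fs * (G + c * O))
    (hE0 : 0 ≤ E) (hE : E ≤ 3 * C3 * x ^ (1 - n2)) (hSa : Sa ≤ 2 * SY + 2 * c * E ^ 2) :
    Sa ≤ (50 * C2 * (2 / e0) + 50 * C1 + 18 * C3 ^ 2) * (q * (x / L) + c * x ^ (2 - η)) := by
  have hx0 : 0 < x := by linarith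
  have hx1 : 1 ≤ x := by linarith
  have hL0 : 0 < L := by
    rw [hL]
    exact Real.log_pos (by linarith)
  have hy : 0 < x / L := div_pos hx0 hL0
  set y := x / L with hyd
  have hlz0 : 0 < lz := lt_of_lt_of_le (by positivity) hlz
  have hq0 : 0 ≤ q := hFs0.trans hFs
  have h1 : x / lz ≤ 2 / e0 * y := by
    rw [hyd, div_le_iff₀ hlz0]
    calc x = 2 / e0 * (x / L) * (e0 / 2 * L) := by field_simp
      _ ≤ 2 / e0 * (x / L) * lz := by gcongr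
  have h3 : G ≤ C2 * (2 / e0) * y := by
    rw [hG, mul_div_assoc]
    calc C2 * (x / lz) ≤ C2 * (2 / e0 * y) := by gcongr
      _ = _ := by ring
  have hG0 : 0 ≤ G := by
    rw [hG]
    positivity
  set u := x ^ (2 - η) with hu
  have hu0 : 0 < u := Real.rpow_pos_of_pos hx0 _
  have hxO : x * O ≤ C1 * u := by
    rw [hO]
    have h4 : x * x ^ (1 - n1) = x ^ (2 - n1) := by
      rw [show (2 : ℝ) - n1 = 1 + (1 - n1) by ring, Real.rpow_add hx0, Real.rpow_one]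
    have h5 : x ^ (2 - n1) ≤ u := Real.rpow_le_rpow_of_exponent_le hx1 (by linarith)
    calc x * (C1 * x ^ (1 - n1)) = C1 * (x * x ^ (1 - n1)) := by ring
      _ = C1 * x ^ (2 - n1) := by rw [h4]
      _ ≤ C1 * u := by gcongr
  have hO0 : 0 ≤ O := by
    rw [hO]
    positivity
  have h6 : SY ≤ 25 * (C2 * (2 / e0)) * (q * y) + 25 * C1 * (c * u) := by
    calc SY ≤ 25 * Fs * (G + c * O) := hSY
      _ ≤ 25 * q * (G + c * O) := by gcongr
      _ = 25 * (q * G) + 25 * c * (q * O) := by ring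
      _ ≤ 25 * (q * (C2 * (2 / e0) * y)) + 25 * c * (x * O) := by gcongr
      _ ≤ 25 * (q * (C2 * (2 / e0) * y)) + 25 * c * (C1 * u) := by gcongr
      _ = _ := by ring
  have h7 : E ^ 2 ≤ 9 * C3 ^ 2 * u := by
    have h8 : x ^ (1 - n2) * x ^ (1 - n2) ≤ u := by
      rw [← Real.rpow_add hx0]
      exact Real.rpow_le_rpow_of_exponent_le hx1 (by linarith)
    calc E ^ 2 ≤ (3 * C3 * x ^ (1 - n2)) ^ 2 := pow_le_pow_left₀ hE0 hE 2
      _ = 9 * C3 ^ 2 * (x ^ (1 - n2) * x ^ (1 - n2)) := by ring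
      _ ≤ 9 * C3 ^ 2 * u := by gcongr
  have ha : 0 ≤ q * y := by positivity
  have hb : 0 ≤ c * u := by positivity
  have hcoef : 0 ≤ C2 * (2 / e0) := by positivity
  calc Sa ≤ 2 * SY + 2 * c * E ^ 2 := hSa
    _ ≤ 2 * (25 * (C2 * (2 / e0)) * (q * y) + 25 * C1 * (c * u)) + 2 * c * (9 * C3 ^ 2 * u) := by
        gcongr
    _ = 50 * (C2 * (2 / e0)) * (q * y) + (50 * C1 + 18 * C3 ^ 2) * (c * u) := by ring
    _ ≤ (50 * (C2 * (2 / e0)) + (50 * C1 + 18 * C3 ^ 2)) * (q * y) +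
        (50 * (C2 * (2 / e0)) + (50 * C1 + 18 * C3 ^ 2)) * (c * u) := by
        have h10 : 0 ≤ 50 * C1 + 18 * C3 ^ 2 := by positivity
        exact add_le_add (mul_le_mul_of_nonneg_right (by linarith) ha)
          (mul_le_mul_of_nonneg_right (by linarith) hb)
    _ = _ := by ring

/-- the case of small `N`, numbers only -/
lemma numS {x y η c q Sa M Cb : ℝ} (hx : 2 ≤ x) (hη : η ≤ 1) (hc : 0 ≤ c)
    (hM : x ≤ M) (hSa : Sa ≤ c * (4 * x ^ 4)) (hCb : 0 ≤ Cb) (hq : 0 ≤ q * y) :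
    Sa ≤ (Cb + 4 * M ^ 4) * (q * y + c * x ^ (2 - η)) := by
  have hx0 : 0 < x := by linarith
  have hx1 : 1 ≤ x := by linarith
  have hM0 : 0 < M := by linarith
  have h1 : 1 ≤ x ^ (2 - η) := Real.one_le_rpow hx1 (by linarith)
  calc Sa ≤ c * (4 * x ^ 4) := hSa
    _ ≤ c * (4 * M ^ 4) := by gcongr
    _ = (0 + 4 * M ^ 4) * (0 + c * 1) := by ring
    _ ≤ (Cb + 4 * M ^ 4) * (q * y + c * x ^ (2 - η)) := by
        gcongr

theorem Q2_nonneg (f : ℕ → ℝ) (N : ℕ) : 0 ≤ Q2 f N := sum_nonneg fun _ _ => sq_nonneg _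

theorem Q2_le {f : ℕ → ℝ} (hf : ∀ p, |f p| ≤ 1) (N : ℕ) : Q2 f N ≤ N := by
  unfold Q2
  refine (sum_le_card_nsmul _ _ 1 (fun p _ => ?_)).trans ?_
  · rw [← sq_abs]
    exact pow_le_one₀ (abs_nonneg _) (hf p)
  · rw [nsmul_eq_mul, mul_one]
    have := card_le_card (filter_subset Nat.Prime (Icc 1 N))
    rw [Nat.card_Icc] at this
    exact_mod_cast (by omega : ((Icc 1 N).filter Nat.Prime).card ≤ N)

theorem BK2 (hTT : BX.St_TT) (hDI : BX.St_DI) (hDU : BX.St_DU) (hPR : BX.St_PR)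
    (hWX : BX.St_WX) (hEX : BX.St_EX) : St_BK2 := by
  intro θ ε hθ hε
  obtain ⟨e1, n1, C1, he1, hn1, hC1, tt⟩ := hTT θ ε hθ hε
  obtain ⟨N2, C2, hC2, di⟩ := hDI ε hε
  obtain ⟨N3, C3, hC3, pr⟩ := hPR ε hε
  obtain ⟨e0, he0, he01, he04⟩ : ∃ e0 : ℝ, 0 < e0 ∧ e0 ≤ e1 ∧ e0 ≤ 1 / 4 :=
    ⟨min e1 (1 / 4), lt_min he1 (by norm_num), min_le_left _ _, min_le_right _ _⟩
  obtain ⟨n2, hn2, hn24, hn2e⟩ : ∃ n2 : ℝ, 0 < n2 ∧ n2 ≤ 1 / 4 ∧ n2 ≤ ε / 2 :=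
    ⟨min (1 / 4) (ε / 2), lt_min (by norm_num) (by linarith), min_le_left _ _, min_le_right _ _⟩
  obtain ⟨η, hη, hη1, hη2⟩ : ∃ η : ℝ, 0 < η ∧ η ≤ n1 / 2 ∧ η ≤ n2 :=
    ⟨min (n1 / 2) n2, lt_min (by linarith) hn2, min_le_left _ _, min_le_right _ _⟩
  obtain ⟨N5, hN5⟩ : ∃ N5 : ℕ, ∀ N : ℕ, N5 ≤ N → (2 : ℝ) ≤ (N : ℝ) ^ (e0 / 2) := by
    have := ((tendsto_rpow_atTop (half_pos he0)).comp
      (tendsto_natCast_atTop_atTop (R := ℝ))).eventually_ge_atTop 2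
    exact Filter.eventually_atTop.1 this
  have hCb : 0 < 50 * C2 * (2 / e0) + 50 * C1 + 18 * C3 ^ 2 := by positivity
  obtain ⟨M, hM⟩ : ∃ M : ℕ, M = N2 + N3 + N5 + 2 := ⟨_, rfl⟩
  refine ⟨e0, η, 50 * C2 * (2 / e0) + 50 * C1 + 18 * C3 ^ 2 + 4 * (M : ℝ) ^ 4, he0, hη,
    by positivity, ?_⟩
  intro N D0 X hN hXθ hD0 hXD f hf A hA T hT
  have hNr : (2 : ℝ) ≤ N := by exact_mod_cast hN
  have hN0 : (0 : ℝ) < N := by linarith
  have hN1 : (1 : ℝ) ≤ N := by linarith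
  have hXN' : (X : ℝ) ≤ (N : ℝ) ^ (3 / 4 : ℝ) :=
    hXθ.trans (Real.rpow_le_rpow_of_exponent_le hN1 (by linarith))
  have hXN : X ≤ N := by
    have : (X : ℝ) ≤ N := hXN'.trans (by
      calc (N : ℝ) ^ (3 / 4 : ℝ) ≤ (N : ℝ) ^ (1 : ℝ) :=
            Real.rpow_le_rpow_of_exponent_le hN1 (by norm_num)
        _ = N := Real.rpow_one _)
    exact_mod_cast this
  rcases lt_or_ge N M with hNM | hNM
  · have hL0 : 0 < Real.log N := Real.log_pos (by linarith)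
    refine numS hNr (by linarith) (Nat.cast_nonneg _) (by exact_mod_cast hNM.le) ?_
      hCb.le (mul_nonneg (Q2_nonneg f N) (by positivity))
    calc ∑ a ∈ A, (∑ d ∈ T a, |Df f N a d|) ^ 2 ≤ ∑ a ∈ A, 4 * (N : ℝ) ^ 4 := by
          refine sum_le_sum fun a ha => TaskBK.small hf fun d hd => ?_
          obtain ⟨h1, h2, -⟩ := hT a ha d hd
          rw [mem_Icc]
          omega
      _ = A.card * (4 * (N : ℝ) ^ 4) := by rw [sum_const, nsmul_eq_mul]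
  · have hL0 : 0 < Real.log N := Real.log_pos (by linarith)
    have hg2 : (2 : ℝ) ≤ (N : ℝ) ^ (e0 / 2) := hN5 N (by omega)
    obtain ⟨g, hg⟩ : ∃ g : ℝ, g = (N : ℝ) ^ (e0 / 2) := ⟨_, rfl⟩
    rw [← hg] at hg2
    have hgg : (N : ℝ) ^ e0 = g * g := by
      rw [hg, ← Real.rpow_add hN0]
      congr 1
      ring
    obtain ⟨z, hz⟩ : ∃ z : ℕ, z = ⌊(N : ℝ) ^ e0⌋₊ := ⟨_, rfl⟩
    have hz1 : (z : ℝ) ≤ (N : ℝ) ^ e0 := by
      rw [hz]
      exact Nat.floor_le (Real.rpow_nonneg hN0.le _)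
    have hz2 : (N : ℝ) ^ e0 < z + 1 := by
      rw [hz]
      exact Nat.lt_floor_add_one _
    have hgz : g ≤ z := by
      rw [hgg] at hz2
      nlinarith
    have hz3 : 2 ≤ z := by
      have : (2 : ℝ) ≤ z := hg2.trans hgz
      exact_mod_cast this
    have hz4 : (z : ℝ) ≤ (N : ℝ) ^ (1 / 4 : ℝ) :=
      hz1.trans (Real.rpow_le_rpow_of_exponent_le hN1 he04)
    have hz5 : (z : ℝ) ≤ (N : ℝ) ^ e1 := hz1.trans (Real.rpow_le_rpow_of_exponent_le hN1 he01)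
    have hlz : e0 / 2 * Real.log N ≤ Real.log z := by
      rw [← Real.log_rpow hN0, ← hg]
      exact Real.log_le_log (by linarith) hgz
    have hlz0 : 0 < Real.log z := lt_of_lt_of_le (by positivity) hlz
    have hXD' : (X : ℝ) ≤ (N : ℝ) ^ e1 * D0 := by
      refine hXD.trans ?_
      have := Real.rpow_le_rpow_of_exponent_le hN1 he01
      gcongr
    obtain ⟨lam, hlam⟩ := hWX z hz3
    have hc : ∀ a : ℤ, ∃ c : ℕ → ℝ, a ∈ A → (CofR ((N : ℝ) ^ ε) X c ∧ (∀ d, c d ≠ 0 → d ∈ T a) ∧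
        ∑ d ∈ T a, |Df f N a d| ≤
          |∑ p ∈ (Icc 1 N).filter (fun p => p.Prime ∧ z < p), f p * rf c X a p| +
            C3 * (z + X + (N : ℝ) ^ (1 - ε / 2))) := by
      intro a
      by_cases ha : a ∈ A
      · obtain ⟨c, h1, h2, h3⟩ := pr N z X (by omega) hXN f hf a (hA a ha) (T a)
          (fun d hd => ⟨(hT a ha d hd).2.1, (hT a ha d hd).2.2⟩)
        exact ⟨c, fun _ => ⟨h1, h2, h3⟩⟩
      · exact ⟨0, fun h => absurd h ha⟩
    choose c hc using hc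
    have hw25 : ∀ p ∈ (Icc 1 N).filter (fun p => p.Prime ∧ z < p),
        (1 : ℝ) ≤ 25 * (fun n : ℤ => Wt N n * nuS lam z n) (p : ℤ) := by
      intro p hp
      rw [mem_filter, mem_Icc] at hp
      exact TaskBK.w_prime hlam (by omega) hp.2.1 hp.2.2 hp.1.2
    have hG0 : 0 ≤ C2 * N / Real.log z := by positivity
    have hO0 : 0 ≤ C1 * (N : ℝ) ^ (1 - n1) := by positivity
    have hdu := hDU (fun n : ℤ => Wt N n * nuS lam z n) (fun n => TaskBK.w_nonneg N z lam n)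
      ((Icc 1 N).filter (fun p => p.Prime ∧ z < p)) hw25 A (fun a n => rf (c a) X a n) f
      (fun a _ a' _ => (hEX N z X (by omega) lam (c a) (c a') a a').2.1)
      (C2 * N / Real.log z) (C1 * (N : ℝ) ^ (1 - n1))
      (fun a ha => di N z X (by omega) hXN hz3 hz4 lam hlam (c a) (hc a ha).1 a (hA a ha))
      hG0 hO0
      (fun a ha a' ha' haa => tt N z D0 X hN (by omega) hz5 hXθ hD0 hXD' lam hlam (c a) (c a')
        (hc a ha).1 (hc a' ha').1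
        (fun d hd => (hT a ha d ((hc a ha).2.1 d hd)).1)
        (fun d hd => (hT a' ha' d ((hc a' ha').2.1 d hd)).1) a a' (hA a ha) (hA a' ha') haa)
    have hFs : ∑ p ∈ (Icc 1 N).filter (fun p => p.Prime ∧ z < p), f p ^ 2 ≤ Q2 f N := by
      unfold Q2
      refine sum_le_sum_of_subset_of_nonneg ?_ fun _ _ _ => sq_nonneg _
      intro p hp
      rw [mem_filter] at hp ⊢
      exact ⟨hp.1, hp.2.1⟩
    have hE : C3 * (z + X + (N : ℝ) ^ (1 - ε / 2)) ≤ 3 * C3 * (N : ℝ) ^ (1 - n2) := by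
      have h1 : (z : ℝ) ≤ (N : ℝ) ^ (1 - n2) :=
        hz4.trans (Real.rpow_le_rpow_of_exponent_le hN1 (by linarith))
      have h2 : (X : ℝ) ≤ (N : ℝ) ^ (1 - n2) :=
        hXN'.trans (Real.rpow_le_rpow_of_exponent_le hN1 (by linarith))
      have h3 : (N : ℝ) ^ (1 - ε / 2) ≤ (N : ℝ) ^ (1 - n2) :=
        Real.rpow_le_rpow_of_exponent_le hN1 (by linarith)
      nlinarith
    have hE0 : 0 ≤ C3 * (z + X + (N : ℝ) ^ (1 - ε / 2)) := by positivity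
    obtain ⟨E, hEe⟩ : ∃ E : ℝ, E = C3 * (z + X + (N : ℝ) ^ (1 - ε / 2)) := ⟨_, rfl⟩
    have hSa : ∑ a ∈ A, (∑ d ∈ T a, |Df f N a d|) ^ 2 ≤
        2 * (∑ a ∈ A, (∑ p ∈ (Icc 1 N).filter (fun p => p.Prime ∧ z < p),
          f p * (fun (a n : ℤ) => rf (c a) X a n) a p) ^ 2) + 2 * A.card * E ^ 2 := by
      calc ∑ a ∈ A, (∑ d ∈ T a, |Df f N a d|) ^ 2
          ≤ ∑ a ∈ A, (2 * (∑ p ∈ (Icc 1 N).filter (fun p => p.Prime ∧ z < p),
              f p * (fun (a n : ℤ) => rf (c a) X a n) a p) ^ 2 + 2 * E ^ 2) := by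
            refine sum_le_sum fun a ha => ?_
            have h1 := (hc a ha).2.2
            rw [← hEe] at h1
            have h2 : (∑ d ∈ T a, |Df f N a d|) ^ 2 ≤
                (|∑ p ∈ (Icc 1 N).filter (fun p => p.Prime ∧ z < p), f p * rf (c a) X a p| + E) ^ 2 :=
              pow_le_pow_left₀ (sum_nonneg fun d _ => abs_nonneg _) h1 2
            exact h2.trans (TaskBK.two_sq _ _)
        _ = _ := by
            rw [sum_add_distrib, ← mul_sum, sum_const, nsmul_eq_mul]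
            ring
    have hfin := numL hNr rfl he0 hC1 hC2 hC3 hn1 hn2 hη1 hη2
      (Nat.cast_nonneg A.card) hlz hFs (sum_nonneg fun p _ => sq_nonneg _) (Q2_le hf N) rfl rfl hdu
      (hEe ▸ hE0) (hEe ▸ hE) hSa
    refine hfin.trans ?_
    have hpos : (0 : ℝ) ≤ Q2 f N * (N / Real.log N) + A.card * (N : ℝ) ^ (2 - η) :=
      add_nonneg (mul_nonneg (Q2_nonneg f N) (by positivity)) (by positivity)
    refine mul_le_mul_of_nonneg_right ?_ hpos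
    have hM5 : (0 : ℝ) ≤ 4 * (M : ℝ) ^ 4 := by positivity
    linarith

end Pool.Agent.W826.SG
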